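import Mathlib

/-!
# A relation in the Quillen negation monoid of topological spaces
-/

set_option autoImplicit false

open CategoryTheory CategoryTheory.Limits MorphismProperty

namespace Pool.Agent.Results.MP_364315_al.IteratedNegation

universe u

/-- The two letters `l` and `r`. -/
inductive Letter
  | l
  | r

/-- The Quillen negations `P ↦ P^l` and `P ↦ P^r` of a class of morphisms of `Top`. -/
def neg (a : Letter) (P : MorphismProperty TopCat.{u}) : MorphismProperty TopCat.{u} :=
  match a with
  | Letter.l => P.llp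
  | Letter.r => P.rlp

/-- `P ↦ P^w`, reading the word `w` from left to right. -/
def negWord (w : FreeMonoid Letter) (P : MorphismProperty TopCat.{u}) :
    MorphismProperty TopCat.{u} :=
  (FreeMonoid.toList w).foldl (fun Q a => neg a Q) P

/-- The two standard relations `lrl = l` and `rlr = r`. -/
inductive StdRel : FreeMonoid Letter → FreeMonoid Letter → Prop
  | lrl : StdRel (FreeMonoid.of Letter.l * FreeMonoid.of Letter.r * FreeMonoid.of Letter.l)
      (FreeMonoid.of Letter.l)
  | rlr : StdRel (FreeMonoid.of Letter.r * FreeMonoid.of Letter.l * FreeMonoid.of Letter.r)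
      (FreeMonoid.of Letter.r)

/-- the two-point indiscrete space -/
def Ind : Type u := ULift.{u} Bool

instance : TopologicalSpace Ind.{u} := ⊤

/-- a copy of a type with the discrete topology -/
def Dsc (D : Type u) : Type u := D

instance (D : Type u) : TopologicalSpace (Dsc D) := ⊥

instance (D : Type u) : DiscreteTopology (Dsc D) := ⟨rfl⟩

section lifting

variable {A B X Y : TopCat.{u}} {f : A ⟶ B} {g : X ⟶ Y}

lemma exists_lift (h : HasLiftingProperty f g) (t : A ⟶ X) (b : B ⟶ Y) (w : t ≫ g = f ≫ b) :
    ∃ l : B ⟶ X, f ≫ l = t ∧ l ≫ g = b := by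
  have sq : CommSq t f g b := ⟨w⟩
  have := h.sq_hasLift sq
  exact ⟨sq.lift, sq.fac_left, sq.fac_right⟩

lemma hasLift_of (h : ∀ (t : A ⟶ X) (b : B ⟶ Y), t ≫ g = f ≫ b →
    ∃ l : B ⟶ X, f ≫ l = t ∧ l ≫ g = b) : HasLiftingProperty f g := by
  refine ⟨fun {t b} sq => ?_⟩
  obtain ⟨l, h1, h2⟩ := h t b sq.w
  exact ⟨⟨⟨l, h1, h2⟩⟩⟩

end lifting

/-- every member with nonempty source is a split monomorphism -/
def Split (K : MorphismProperty TopCat.{u}) : Prop :=
  ∀ ⦃C D : TopCat.{u}⦄ (k : C ⟶ D), K k → Nonempty C → ∃ r : D ⟶ C, k ≫ r = 𝟙 C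

/-- every member is injective -/
def Inj (K : MorphismProperty TopCat.{u}) : Prop :=
  ∀ ⦃C D : TopCat.{u}⦄ (k : C ⟶ D), K k → Function.Injective k

/-- the class of surjections -/
def surj : MorphismProperty TopCat.{u} := fun _ _ f => Function.Surjective f

lemma inj_of_split {K : MorphismProperty TopCat.{u}} (hK : Split K) : Inj K := by
  intro C D k hk x y hxy
  obtain ⟨r, hr⟩ := hK k hk ⟨x⟩
  have h1 : ∀ z : C, r (k z) = z := fun z => by
    rw [← ConcreteCategory.comp_apply, hr]; rfl
  rw [← h1 x, ← h1 y, hxy]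

/-- the map to the point -/
def toPt (A : TopCat.{u}) : A ⟶ TopCat.of PUnit.{u + 1} :=
  TopCat.ofHom ⟨fun _ => PUnit.unit, continuous_const⟩

/-- constant maps -/
def cst (A : TopCat.{u}) {B : TopCat.{u}} (b : B) : A ⟶ B :=
  TopCat.ofHom ⟨fun _ => b, continuous_const⟩

lemma toPt_mem {K : MorphismProperty TopCat.{u}} (hK : Inj K) (A : TopCat.{u}) (hA : Nonempty A) :
    K.llp (toPt A) := by
  intro X Y g hg
  apply hasLift_of
  intro t b w
  have hw : ∀ a : A, g (t a) = b PUnit.unit := fun a => by
    rw [← ConcreteCategory.comp_apply, w]; rfl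
  obtain ⟨a₀⟩ := hA
  refine ⟨cst _ (t a₀), ?_, ?_⟩
  · ext a
    exact hK g hg ((hw a₀).trans (hw a).symm)
  · ext a
    exact hw a₀

lemma split_of_toPt {K : MorphismProperty TopCat.{u}}
    (hK : ∀ A : TopCat.{u}, Nonempty A → K (toPt A)) : Split K.llp := by
  intro C D k hk hC
  obtain ⟨r, h1, -⟩ := exists_lift (hk _ (hK C hC)) (𝟙 C) (toPt D) rfl
  exact ⟨r, h1⟩

lemma split_of_inj {K : MorphismProperty TopCat.{u}} (hK : Inj K) : Split K.llp.llp :=
  split_of_toPt fun A hA => toPt_mem hK A hA

/-- a map into the indiscrete two-point space -/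
def chi (A : TopCat.{u}) (s : A → Bool) : A ⟶ TopCat.of Ind.{u} :=
  TopCat.ofHom ⟨fun a => (ULift.up (s a) : Ind.{u}), continuous_top⟩

lemma inj_or (P : MorphismProperty TopCat.{u}) : Inj P.llp ∨ Inj P.llp.llp := by
  classical
  by_cases hI : Inj P.llp
  · exact Or.inl hI
  right
  simp only [Inj, not_forall] at hI
  obtain ⟨X, Y, g, hg, hni⟩ := hI
  simp only [Function.Injective, not_forall] at hni
  obtain ⟨x₁, x₂, hx, hne⟩ := hni
  let φ : X ⟶ TopCat.of Ind.{u} := chi X fun x => decide (x = x₁)
  have hq : P.llp (pushout.inl φ g) := by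
    exact MorphismProperty.pushout_inl _ _ hg
  have hq01 : ∀ i j : Ind.{u}, pushout.inl φ g i = pushout.inl φ g j := by
    have h1 : ∀ x : X, pushout.inl φ g (φ x) = pushout.inr φ g (g x) := fun x => by
      rw [← ConcreteCategory.comp_apply, pushout.condition, ConcreteCategory.comp_apply]
    have h2 : pushout.inl φ g (ULift.up true : Ind.{u}) =
        pushout.inl φ g (ULift.up false : Ind.{u}) := by
      have h3 : φ x₁ = (ULift.up true : Ind.{u}) := by
        change (ULift.up (decide (x₁ = x₁)) : Ind.{u}) = _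
        simp
      have h4 : φ x₂ = (ULift.up false : Ind.{u}) := by
        change (ULift.up (decide (x₂ = x₁)) : Ind.{u}) = _
        simp [Ne.symm hne]
      rw [← h3, ← h4, h1, h1, hx]
    rintro ⟨i⟩ ⟨j⟩
    cases i <;> cases j
    · rfl
    · exact h2.symm
    · exact h2
    · rfl
  intro A B f hf a₁ a₂ hfa
  by_contra hne'
  obtain ⟨l, h1, -⟩ := exists_lift (hf _ hq) (chi A fun a => decide (a = a₁))
    (cst B (pushout.inl φ g (ULift.up true : Ind.{u}))) (by
      ext a
      exact hq01 _ _)
  have h2 : ∀ a : A, l (f a) = (ULift.up (decide (a = a₁)) : Ind.{u}) := fun a => by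
    rw [← ConcreteCategory.comp_apply, h1]; rfl
  have h3 := h2 a₁
  rw [hfa, h2 a₂] at h3
  have h4 : decide (a₂ = a₁) = decide (a₁ = a₁) := congrArg ULift.down h3
  simp [Ne.symm hne'] at h4

lemma isos_llp : (isomorphisms TopCat.{u}).llp = ⊤ := by
  ext X Y f
  simp only [MorphismProperty.top_apply, iff_true]
  intro A B g hg
  have : IsIso g := hg
  infer_instance

lemma top_llp : (⊤ : MorphismProperty TopCat.{u}).llp = isomorphisms TopCat.{u} := by
  apply le_antisymm
  · intro X Y f hf
    obtain ⟨l, h1, h2⟩ := exists_lift (hf f trivial) (𝟙 X) (𝟙 Y) (by simp)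
    exact ⟨l, h1, h2⟩
  · intro X Y f hf
    have : IsIso f := hf
    exact llp_of_isIso _ f

/-- the set-theoretic part of the splitting: a surjective split mono is an isomorphism -/
lemma isIso_of {C D : TopCat.{u}} (k : C ⟶ D) (hs : Function.Surjective k)
    (h : Nonempty C → ∃ r : D ⟶ C, k ≫ r = 𝟙 C) : IsIso k := by
  rcases isEmpty_or_nonempty C with hC | hC
  · have hD : IsEmpty D := ⟨fun d => by obtain ⟨c, -⟩ := hs d; exact hC.false c⟩
    let r : D ⟶ C := TopCat.ofHom ⟨fun d => (hD.false d).elim, by
      rw [continuous_iff_continuousAt]; intro d; exact (hD.false d).elim⟩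
    refine ⟨r, ?_, ?_⟩
    · ext c; exact (hC.false c).elim
    · ext d; exact (hD.false d).elim
  · obtain ⟨r, hr⟩ := h hC
    refine ⟨r, hr, ?_⟩
    ext d
    obtain ⟨c, rfl⟩ := hs d
    change k (r (k c)) = k c
    have h1 : r (k c) = c := by
      rw [← ConcreteCategory.comp_apply, hr]; rfl
    rw [h1]

/-- no outside point of a member is inseparable from an inside point -/
def NoTwin (K : MorphismProperty TopCat.{u}) : Prop :=
  ∀ ⦃C D : TopCat.{u}⦄ (k : C ⟶ D), K k → ∀ (c : C) (d : D), Inseparable (k c) d →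
    ∃ c', k c' = d

/-- the inclusion of a point into the indiscrete two-point space -/
def iota : TopCat.of PUnit.{u + 1} ⟶ TopCat.of Ind.{u} :=
  cst _ (ULift.up false : Ind.{u})

lemma inseparable_ind (i j : Ind.{u}) : Inseparable i j := by
  rw [inseparable_iff_forall_isOpen]
  intro s hs
  rcases (TopologicalSpace.isOpen_top_iff s).1 hs with h | h <;> simp [h]

lemma noTwin_llp_llp {K : MorphismProperty TopCat.{u}} (hK : Split K) (hT : NoTwin K) :
    K.llp.llp = isomorphisms TopCat.{u} := by
  classical
  apply le_antisymm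
  · intro A B i hi
    have hs : Function.Surjective i := by
      have hι : K.llp iota.{u} := by
        intro C D k hk
        apply hasLift_of
        intro t b w
        have h0 : k (t PUnit.unit) = b (ULift.up false : Ind.{u}) := by
          rw [← ConcreteCategory.comp_apply, w]; rfl
        obtain ⟨r, hr⟩ := hK k hk ⟨t PUnit.unit⟩
        have hr' : ∀ c : C, r (k c) = c := fun c => by
          rw [← ConcreteCategory.comp_apply, hr]; rfl
        refine ⟨b ≫ r, ?_, ?_⟩
        · ext x
          change r (b (ULift.up false : Ind.{u})) = t PUnit.unit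
          rw [← h0, hr']
        · ext x
          change k (r (b x)) = b x
          have hx : Inseparable (k (t PUnit.unit)) (b x) := by
            rw [h0]
            exact (inseparable_ind _ _).map b.hom.continuous
          obtain ⟨c', hc'⟩ := hT k hk _ _ hx
          rw [← hc', hr']
      by_contra hns
      simp only [Function.Surjective, not_forall, not_exists] at hns
      obtain ⟨b₀, hb₀⟩ := hns
      obtain ⟨l, -, h2⟩ := exists_lift (hi _ hι) (toPt A) (chi B fun b => decide (b = b₀)) (by
        ext a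
        change (ULift.up false : Ind.{u}) = ULift.up (decide (i a = b₀))
        simp [hb₀ a])
      have h3 : iota.{u} (l b₀) = (ULift.up (decide (b₀ = b₀)) : Ind.{u}) := by
        rw [← ConcreteCategory.comp_apply, h2]; rfl
      have h4 : false = decide (b₀ = b₀) := congrArg ULift.down h3
      simp at h4
    exact isIso_of i hs fun hA => split_of_inj (inj_of_split hK) i hi hA
  · intro X Y f hf
    have : IsIso f := hf
    exact llp_of_isIso _ f

lemma twin_llp {K : MorphismProperty TopCat.{u}} (hK : Split K) (hT : ¬ NoTwin K) :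
    K.llp = surj.{u} := by
  classical
  simp only [NoTwin, not_forall, not_exists] at hT
  obtain ⟨C₀, D₀, k₀, hk₀, c₀, d₀, hcd, hd₀⟩ := hT
  apply le_antisymm
  · intro A B j hj
    change Function.Surjective j
    by_contra hns
    simp only [Function.Surjective, not_forall, not_exists] at hns
    obtain ⟨b₀, hb₀⟩ := hns
    have hcont : Continuous (fun b : B => if b = b₀ then d₀ else k₀ c₀) := by
      rw [continuous_def]
      intro s hs
      by_cases h : k₀ c₀ ∈ s
      · have h' : d₀ ∈ s := (hcd.mem_open_iff hs).1 h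
        have : (fun b : B => if b = b₀ then d₀ else k₀ c₀) ⁻¹' s = Set.univ := by
          ext b; by_cases hb : b = b₀ <;> simp [hb, h, h']
        rw [this]; exact isOpen_univ
      · have h' : d₀ ∉ s := fun h' => h ((hcd.mem_open_iff hs).2 h')
        have : (fun b : B => if b = b₀ then d₀ else k₀ c₀) ⁻¹' s = ∅ := by
          ext b; by_cases hb : b = b₀ <;> simp [hb, h, h']
        rw [this]; exact isOpen_empty
    obtain ⟨l, -, h2⟩ := exists_lift (hj _ hk₀) (cst A c₀) (TopCat.ofHom ⟨_, hcont⟩) (by
      ext a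
      change k₀ c₀ = if j a = b₀ then d₀ else k₀ c₀
      rw [if_neg (hb₀ a)])
    have h3 : k₀ (l b₀) = if b₀ = b₀ then d₀ else k₀ c₀ := by
      rw [← ConcreteCategory.comp_apply, h2]; rfl
    rw [if_pos rfl] at h3
    exact hd₀ _ h3
  · intro A B h hh C D k hk
    apply hasLift_of
    intro t b w
    have hw : ∀ a : A, k (t a) = b (h a) := fun a => by
      rw [← ConcreteCategory.comp_apply, w]; rfl
    rcases isEmpty_or_nonempty C with hC | hC
    · have hA : IsEmpty A := ⟨fun a => hC.false (t a)⟩
      have hB : IsEmpty B := ⟨fun d => by obtain ⟨c, -⟩ := hh d; exact hA.false c⟩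
      refine ⟨TopCat.ofHom ⟨fun d => (hB.false d).elim, by
        rw [continuous_iff_continuousAt]; intro d; exact (hB.false d).elim⟩, ?_, ?_⟩
      · ext a; exact (hA.false a).elim
      · ext a; exact (hB.false a).elim
    · obtain ⟨r, hr⟩ := hK k hk hC
      have hr' : ∀ c : C, r (k c) = c := fun c => by
        rw [← ConcreteCategory.comp_apply, hr]; rfl
      refine ⟨b ≫ r, ?_, ?_⟩
      · ext a
        change r (b (h a)) = t a
        rw [← hw, hr']
      · ext x
        obtain ⟨a, rfl⟩ := hh x
        change k (r (b (h a))) = b (h a)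
        rw [← hw, hr']

lemma surj_llp_split : Split surj.{u}.llp :=
  split_of_toPt fun A hA => fun _ => by
    obtain ⟨a⟩ := hA
    exact ⟨a, rfl⟩

lemma surj_llp_noTwin : NoTwin surj.{u}.llp := by
  intro C D i hi c d hcd
  -- the sum of `C` and the discrete space on the points of `D`
  have hcont : Continuous (Sum.elim (fun c : C => i c) (fun d : Dsc D => (show D from d))) :=
    Continuous.sumElim i.hom.continuous continuous_of_discreteTopology
  let g : TopCat.of (C ⊕ Dsc D) ⟶ D := TopCat.ofHom ⟨_, hcont⟩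
  have hg : surj.{u} g := fun d => ⟨Sum.inr d, rfl⟩
  obtain ⟨s, h1, h2⟩ := exists_lift (hi _ hg) (TopCat.ofHom ⟨Sum.inl, continuous_inl⟩) (𝟙 D)
    (by ext c; rfl)
  have h3 : s (i c) = (Sum.inl c : C ⊕ Dsc D) := by
    rw [← ConcreteCategory.comp_apply, h1]; rfl
  have h4 : g (s d) = d := by
    rw [← ConcreteCategory.comp_apply, h2]; rfl
  have h5 : Inseparable (s (i c)) (s d) := hcd.map s.hom.continuous
  rw [h3] at h5
  have h6 : s d ∈ Set.range (Sum.inl : C → C ⊕ Dsc D) :=
    (h5.mem_open_iff isOpen_range_inl).1 ⟨c, rfl⟩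
  obtain ⟨c', hc'⟩ := h6
  refine ⟨c', ?_⟩
  rw [← hc'] at h4
  exact h4

/-- four more negations of a class of split monos give the isomorphisms -/
lemma split_four {K : MorphismProperty TopCat.{u}} (hK : Split K) :
    K.llp.llp.llp.llp = isomorphisms TopCat.{u} := by
  by_cases hT : NoTwin K
  · rw [noTwin_llp_llp hK hT, isos_llp, top_llp]
  · rw [twin_llp hK hT]
    exact noTwin_llp_llp surj_llp_split surj_llp_noTwin

/-- the relation `l ^ 8 = l ^ 10` -/
lemma relation (P : MorphismProperty TopCat.{u}) :
    P.llp.llp.llp.llp.llp.llp.llp.llp = P.llp.llp.llp.llp.llp.llp.llp.llp.llp.llp := by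
  rcases inj_or P with h | h
  · have h7 := split_four (split_of_inj h)
    rw [h7, isos_llp, top_llp, isos_llp]
  · have h8 := split_four (split_of_inj h)
    rw [h8, isos_llp, top_llp]

/-- the words `l ^ 8` and `l ^ 10` are distinct modulo the standard relations -/
lemma distinct : PresentedMonoid.mk StdRel (FreeMonoid.of Letter.l ^ 8) ≠
    PresentedMonoid.mk StdRel (FreeMonoid.of Letter.l ^ 10) := by
  intro h
  let φ : Letter → Multiplicative ℤ := fun a =>
    match a with
    | Letter.l => Multiplicative.ofAdd 1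
    | Letter.r => Multiplicative.ofAdd (-1)
  have hφ : ∀ a b : FreeMonoid Letter, StdRel a b →
      FreeMonoid.lift φ a = FreeMonoid.lift φ b := by
    intro a b hab
    cases hab <;> simp [φ]
  have h2 := congrArg (PresentedMonoid.lift φ hφ) h
  have h3 : ∀ n : ℕ, PresentedMonoid.lift φ hφ
      (PresentedMonoid.mk StdRel (FreeMonoid.of Letter.l ^ n)) = Multiplicative.ofAdd (n : ℤ) := by
    intro n
    rw [map_pow, map_pow]
    have : PresentedMonoid.lift φ hφ (PresentedMonoid.mk StdRel (FreeMonoid.of Letter.l)) =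
        Multiplicative.ofAdd (1 : ℤ) := PresentedMonoid.lift_of φ hφ
    rw [this, ← ofAdd_nsmul]
    simp
  rw [h3, h3] at h2
  have h4 : ((8 : ℕ) : ℤ) = ((10 : ℕ) : ℤ) := Multiplicative.ofAdd.injective h2
  norm_num at h4

/-- The Quillen negation monoid of `Top` satisfies the relation `l ^ 8 = l ^ 10`, which does not
follow from `lrl = l` and `rlr = r`. -/
theorem result :
    ∃ w w' : FreeMonoid Letter,
      PresentedMonoid.mk StdRel w ≠ PresentedMonoid.mk StdRel w' ∧
      ∀ P : MorphismProperty TopCat.{u}, negWord w P = negWord w' P := by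
  refine ⟨FreeMonoid.of Letter.l ^ 8, FreeMonoid.of Letter.l ^ 10, distinct, fun P => ?_⟩
  exact relation P

end Pool.Agent.Results.MP_364315_al.IteratedNegation
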